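import Pool.Agent.H445Z.CubSt

/-! Moment bound for a family with small conditional expectations (Garsia-Neveu argument). -/

namespace Pool.Agent.H261Z.Moment

open Finset Pool.Agent.H445Z.Cub

theorem tangent (p : ℕ) (x y : ℝ) (hx : 0 ≤ x) (hy : 0 ≤ y) :
    x ^ (p + 1) - y ^ (p + 1) ≤ (p + 1) * x ^ p * (x - y) := by
  induction p with
  | zero => simp
  | succ p ih =>
    have h1 := mul_le_mul_of_nonneg_left ih hy
    have h2 : 0 ≤ ((p : ℝ) + 1) * x ^ p * (x - y) ^ 2 := by positivity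
    push_cast
    have e1 : x ^ (p + 1 + 1) = x ^ p * x * x := by ring
    have e2 : y ^ (p + 1 + 1) = y ^ (p + 1) * y := by ring
    have e3 : x ^ (p + 1) = x ^ p * x := by ring
    rw [e1, e2]
    rw [e3] at h1 ⊢
    nlinarith [h1, h2]

theorem exists_root (p : ℕ) (x : ℝ) (hx : 0 ≤ x) : ∃ r : ℝ, 0 ≤ r ∧ r ^ (p + 1) = x :=
  ⟨x ^ (((p + 1 : ℕ) : ℝ)⁻¹), Real.rpow_nonneg hx _,
    Real.rpow_inv_natCast_pow hx (Nat.succ_ne_zero p)⟩

theorem holder {Ω : Type} [Fintype Ω] (p : ℕ) (hp : 1 ≤ p) (f g : Ω → ℝ) (n B : ℝ)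
    (hf : ∀ z, 0 ≤ f z) (hg : ∀ z, 0 ≤ g z) (hn : 0 ≤ n) (hB : 0 ≤ B)
    (h1 : ∑ z, f z ^ (p + 1) ≤ n ^ (p + 1)) (h2 : ∑ z, g z ^ (p + 1) ≤ B ^ (p + 1)) :
    ∑ z, f z ^ p * g z ≤ n ^ p * B := by
  rcases hn.eq_or_lt with hn0 | hn0
  · subst hn0
    have h3 : ∑ z, f z ^ (p + 1) = 0 :=
      le_antisymm (by simpa using h1) (sum_nonneg fun z _ => pow_nonneg (hf z) _)
    rw [sum_eq_zero_iff_of_nonneg fun z _ => pow_nonneg (hf z) _] at h3
    have h4 : ∀ z, f z = 0 := fun z => pow_eq_zero_iff (Nat.succ_ne_zero p) |>.1 (h3 z (mem_univ z))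
    have hp0 : p ≠ 0 := by omega
    simp [h4, hp0]
  rcases hB.eq_or_lt with hB0 | hB0
  · subst hB0
    have h3 : ∑ z, g z ^ (p + 1) = 0 :=
      le_antisymm (by simpa using h2) (sum_nonneg fun z _ => pow_nonneg (hg z) _)
    rw [sum_eq_zero_iff_of_nonneg fun z _ => pow_nonneg (hg z) _] at h3
    have h4 : ∀ z, g z = 0 := fun z => pow_eq_zero_iff (Nat.succ_ne_zero p) |>.1 (h3 z (mem_univ z))
    simp [h4]
  have key : ∀ z, ((p : ℝ) + 1) * B ^ p * n * (f z ^ p * g z) ≤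
      p * B ^ (p + 1) * f z ^ (p + 1) + n ^ (p + 1) * g z ^ (p + 1) := by
    intro z
    have := tangent p (f z * B) (g z * n) (mul_nonneg (hf z) hB) (mul_nonneg (hg z) hn)
    have e1 : (f z * B) ^ (p + 1) = B ^ (p + 1) * f z ^ (p + 1) := by ring
    have e2 : (g z * n) ^ (p + 1) = n ^ (p + 1) * g z ^ (p + 1) := by ring
    have e3 : ((p : ℝ) + 1) * (f z * B) ^ p * (f z * B - g z * n) =
        (p + 1) * (B ^ (p + 1) * f z ^ (p + 1)) - (p + 1) * B ^ p * n * (f z ^ p * g z) := by ring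
    rw [e1, e2, e3] at this
    linarith
  have h5 := sum_le_sum fun z (_ : z ∈ (univ : Finset Ω)) => key z
  rw [sum_add_distrib, ← mul_sum, ← mul_sum, ← mul_sum] at h5
  have h6 : (p : ℝ) * B ^ (p + 1) * ∑ z, f z ^ (p + 1) ≤ p * B ^ (p + 1) * n ^ (p + 1) :=
    mul_le_mul_of_nonneg_left h1 (by positivity)
  have h7 : n ^ (p + 1) * ∑ z, g z ^ (p + 1) ≤ n ^ (p + 1) * B ^ (p + 1) :=
    mul_le_mul_of_nonneg_left h2 (by positivity)
  have hc : 0 < ((p : ℝ) + 1) * B ^ p * n := by positivity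
  refine le_of_mul_le_mul_left ?_ hc
  have e4 : ((p : ℝ) + 1) * B ^ p * n * (n ^ p * B) =
      p * B ^ (p + 1) * n ^ (p + 1) + n ^ (p + 1) * B ^ (p + 1) := by ring
  linarith

theorem gn (p : ℕ) (y : ℕ → ℝ) (n : ℕ) (hy : ∀ b < n, 0 ≤ y b) :
    (∑ b ∈ range n, y b) ^ (p + 1) ≤
      (p + 1) * ∑ b ∈ range n, (∑ a ∈ range (b + 1), y a) ^ p * y b := by
  induction n with
  | zero => simp
  | succ n ih =>
    have ih' := ih fun b hb => hy b (by omega)
    have h1 := tangent p (∑ b ∈ range (n + 1), y b) (∑ b ∈ range n, y b)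
      (sum_nonneg fun b hb => hy b (mem_range.1 hb))
      (sum_nonneg fun b hb => hy b (by have := mem_range.1 hb; omega))
    have e : ∑ b ∈ range (n + 1), y b - ∑ b ∈ range n, y b = y n := by
      rw [sum_range_succ]; ring
    rw [e] at h1
    rw [sum_range_succ (fun b => (∑ a ∈ range (b + 1), y a) ^ p * y b) n]
    linarith

section filt

variable {ι Ω : Type} [Fintype Ω] (Φ : Filt ι Ω)

theorem E_of_meas (t : ι → ℕ) (f : Ω → ℝ) (h : Φ.Meas t f) : Φ.E t f = f := by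
  funext x
  have := Φ.mul t f (fun _ => 1) h x
  simpa [Φ.one] using this

theorem sum_mul_E (t : ι → ℕ) (H Y : Ω → ℝ) (h : Φ.Meas t H) :
    ∑ z, H z * Y z = ∑ z, H z * Φ.E t Y z := by
  rw [← Φ.total t (fun z => H z * Y z)]
  exact sum_congr rfl fun z _ => Φ.mul t H Y h z

theorem meas_anti {t t' : ι → ℕ} (h : t ≤ t') {f : Ω → ℝ} (hf : Φ.Meas t f) : Φ.Meas t' f :=
  fun x y hxy => hf x y (Φ.anti t t' h x y hxy)

theorem E_sum {κ : Type} (t : ι → ℕ) (T : Finset κ) (F : κ → Ω → ℝ) (z : Ω) :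
    Φ.E t (fun x => ∑ k ∈ T, F k x) z = ∑ k ∈ T, Φ.E t (F k) z := by
  have : (fun x => ∑ k ∈ T, F k x) = ∑ k ∈ T, F k := by
    funext x; simp
  rw [this, map_sum]
  simp

end filt

section box

variable {ι : Type} [Fintype ι] [DecidableEq ι]

theorem mem_sbox (S : Finset ι) (M : ℕ) (s : ι → ℕ) :
    s ∈ sbox S M ↔ (∀ e, s e ≤ M) ∧ ∀ e, e ∉ S → s e = M := by
  unfold sbox
  rw [Fintype.mem_piFinset]
  constructor
  · intro h
    refine ⟨fun e => ?_, fun e he => ?_⟩
    · have := h e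
      split_ifs at this
      · have := mem_range.1 this; omega
      · exact (mem_singleton.1 this).le
    · have := h e
      rw [if_neg he] at this
      exact mem_singleton.1 this
  · rintro ⟨h1, h2⟩ e
    split_ifs with he
    · exact mem_range.2 (Nat.lt_succ_of_le (h1 e))
    · exact mem_singleton.2 (h2 e he)

theorem card_sbox (S : Finset ι) (M : ℕ) : (sbox S M).card = (M + 1) ^ S.card := by
  unfold sbox
  rw [Fintype.card_piFinset]
  simp only [apply_ite Finset.card, card_range, card_singleton]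
  rw [prod_ite_mem_eq]
  simp

theorem update_mem {S : Finset ι} {M : ℕ} {c : ι} {s : ι → ℕ} {b : ℕ} (hs : s ∈ sbox S M)
    (hb : b ≤ M) : Function.update s c b ∈ sbox (insert c S) M := by
  rw [mem_sbox] at hs ⊢
  refine ⟨fun e => ?_, fun e he => ?_⟩
  · by_cases h : e = c
    · subst h; simpa using hb
    · rw [Function.update_of_ne h]; exact hs.1 e
  · rw [mem_insert, not_or] at he
    rw [Function.update_of_ne he.1]; exact hs.2 e he.2

theorem sum_sbox_insert {S : Finset ι} {c : ι} (hc : c ∉ S) (M : ℕ) (f : (ι → ℕ) → ℝ) :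
    ∑ s ∈ sbox (insert c S) M, f s =
      ∑ b ∈ range (M + 1), ∑ s ∈ sbox S M, f (Function.update s c b) := by
  rw [← sum_product']
  symm
  refine sum_bij' (fun x _ => Function.update x.2 c x.1)
    (fun s _ => (s c, Function.update s c M)) ?_ ?_ ?_ ?_ ?_
  · rintro ⟨b, s⟩ h
    rw [mem_product] at h
    exact update_mem h.2 (Nat.le_of_lt_succ (mem_range.1 h.1))
  · intro s h
    rw [mem_sbox] at h
    rw [mem_product, mem_sbox]
    refine ⟨mem_range.2 (Nat.lt_succ_of_le (h.1 c)), fun e => ?_, fun e he => ?_⟩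
    · by_cases h' : e = c
      · subst h'; simp
      · simp only [Function.update_of_ne h']; exact h.1 e
    · by_cases h' : e = c
      · subst h'; simp
      · simp only [Function.update_of_ne h']
        exact h.2 e (by rw [mem_insert, not_or]; exact ⟨h', he⟩)
  · rintro ⟨b, s⟩ h
    rw [mem_product, mem_sbox] at h
    have := h.2.2 c hc
    simp only at this
    simp [← this]
  · intro s _
    simp
  · intro x _
    rfl

end box

section step

variable {ι Ω : Type} [Fintype ι] [DecidableEq ι] [Fintype Ω] (Φ : Filt ι Ω)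

/-- The level vector equal to `a` at `c` and to `M` elsewhere. -/
def mv (M : ℕ) (c : ι) (a : ℕ) : ι → ℕ := Function.update (fun _ => M) c a

/-- The family conditioned `w` levels down in the coordinate `c`. -/
noncomputable def Zp (M : ℕ) (c : ι) (Z : (ι → ℕ) → Ω → ℝ) (w b : ℕ) (s : ι → ℕ) : Ω → ℝ :=
  if w ≤ b then Φ.E (mv M c (b - w)) (Z (Function.update s c b)) else 0

theorem update_le_mv {S : Finset ι} {M : ℕ} (c : ι) {s : ι → ℕ} (hs : s ∈ sbox S M) {b a : ℕ}
    (h : b ≤ a) : Function.update s c b ≤ mv M c a := by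
  intro e
  unfold mv
  by_cases h' : e = c
  · subst h'; simpa using h
  · simp only [Function.update_of_ne h']; exact ((mem_sbox S M s).1 hs).1 e

theorem update_le_self {S : Finset ι} {M : ℕ} {c : ι} (hc : c ∉ S) {s : ι → ℕ}
    (hs : s ∈ sbox S M) {b : ℕ} (h : b ≤ M) : Function.update s c b ≤ s := by
  intro e
  by_cases h' : e = c
  · subst h'; simpa [((mem_sbox S M s).1 hs).2 e hc] using h
  · simp only [Function.update_of_ne h']; exact le_rfl

theorem inf_mv {S : Finset ι} {M : ℕ} {c : ι} (hc : c ∉ S) {t : ι → ℕ}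
    (ht : t ∈ sbox S M) {a : ℕ} (h : a ≤ M) : t ⊓ mv M c a = Function.update t c a := by
  funext e
  unfold mv
  by_cases h' : e = c
  · subst h'; simpa [((mem_sbox S M t).1 ht).2 e hc] using h
  · simpa [Function.update_of_ne h'] using ((mem_sbox S M t).1 ht).1 e

variable {S : Finset ι} {M : ℕ} {c : ι} {Z : (ι → ℕ) → Ω → ℝ}

theorem Zp_nonneg (h0 : ∀ s ∈ sbox (insert c S) M, ∀ z, 0 ≤ Z s z) (w : ℕ) {b : ℕ} (hb : b ≤ M)
    {s : ι → ℕ} (hs : s ∈ sbox S M) (z : Ω) : 0 ≤ Zp Φ M c Z w b s z := by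
  unfold Zp
  split_ifs
  · exact Φ.pos _ _ (h0 _ (update_mem hs hb)) z
  · exact le_rfl

theorem Zp_meas (hc : c ∉ S) (hm : ∀ s ∈ sbox (insert c S) M, Φ.Meas s (Z s)) (w : ℕ) {b : ℕ}
    (hb : b ≤ M) {s : ι → ℕ} (hs : s ∈ sbox S M) : Φ.Meas s (Zp Φ M c Z w b s) := by
  unfold Zp
  split_ifs
  · have h1 : Φ.E s (Z (Function.update s c b)) = Z (Function.update s c b) :=
      E_of_meas Φ _ _ (meas_anti Φ (update_le_self hc hs hb) (hm _ (update_mem hs hb)))
    have h2 : Φ.E (mv M c (b - w)) (Z (Function.update s c b)) =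
        Φ.E s (Φ.E (mv M c (b - w)) (Z (Function.update s c b))) := by
      rw [Φ.comp, inf_comm, ← Φ.comp, h1]
    rw [h2]
    exact fun x y hxy => Φ.meas _ _ x y hxy
  · exact fun _ _ _ => rfl

theorem Zp_cond (hc : c ∉ S) {A : ℝ} {ψ : ℕ → ℝ} (hA : 0 ≤ A) (hψ : ∀ w, 0 ≤ ψ w)
    (hE : ∀ s ∈ sbox (insert c S) M, ∀ t ∈ sbox (insert c S) M, t ≤ s → ∀ z,
      Φ.E t (Z s) z ≤ A * ∏ e ∈ insert c S, ψ (s e - t e))
    (w : ℕ) {b : ℕ} (hb : b ≤ M) {s : ι → ℕ} (hs : s ∈ sbox S M) {t : ι → ℕ} (ht : t ∈ sbox S M)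
    (hts : t ≤ s) (z : Ω) :
    Φ.E t (Zp Φ M c Z w b s) z ≤ A * ψ w * ∏ e ∈ S, ψ (s e - t e) := by
  unfold Zp
  split_ifs with hw
  · rw [Φ.comp, inf_mv hc ht (by omega : b - w ≤ M)]
    have hle : Function.update t c (b - w) ≤ Function.update s c b := by
      intro e
      by_cases h' : e = c
      · subst h'; simp
      · simp only [Function.update_of_ne h']; exact hts e
    refine (hE _ (update_mem hs hb) _ (update_mem ht (by omega : b - w ≤ M)) hle z).trans_eq ?_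
    rw [prod_insert hc, mul_assoc]
    simp only [Function.update_self]
    rw [show b - (b - w) = w by omega]
    congr 2
    refine prod_congr rfl fun e he => ?_
    have h' : e ≠ c := fun h => hc (h ▸ he)
    simp only [Function.update_of_ne h']
  · rw [map_zero]
    exact mul_nonneg (mul_nonneg hA (hψ w)) (prod_nonneg fun e _ => hψ _)

theorem Zp_total (h0 : ∀ s ∈ sbox (insert c S) M, ∀ z, 0 ≤ Z s z) (w : ℕ) {b : ℕ} (hb : b ≤ M) :
    ∑ z, ∑ s ∈ sbox S M, Zp Φ M c Z w b s z ≤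
      ∑ z, ∑ s ∈ sbox S M, Z (Function.update s c b) z := by
  rw [sum_comm, sum_comm (s := univ) (t := sbox S M)]
  refine sum_le_sum fun s hs => ?_
  unfold Zp
  split_ifs
  · exact (Φ.total _ _).le
  · simpa using sum_nonneg fun z _ => h0 _ (update_mem hs hb) z

theorem Zp_pair (w b : ℕ) (H : Ω → ℝ) (hH : Φ.Meas (mv M c (b - w)) H)
    (hH0 : b < w → ∀ z, H z = 0) :
    ∑ z, H z * ∑ s ∈ sbox S M, Z (Function.update s c b) z =
      ∑ z, H z * ∑ s ∈ sbox S M, Zp Φ M c Z w b s z := by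
  by_cases hw : w ≤ b
  · rw [sum_mul_E Φ _ _ _ hH]
    refine sum_congr rfl fun z _ => ?_
    rw [E_sum]
    simp only [Zp, if_pos hw]
  · simp [hH0 (by omega)]

theorem P_meas (hm : ∀ s ∈ sbox (insert c S) M, Φ.Meas s (Z s)) {n a : ℕ} (hn : n ≤ M + 1)
    (hna : n ≤ a + 1) :
    Φ.Meas (mv M c a) fun z => ∑ b ∈ range n, ∑ s ∈ sbox S M, Z (Function.update s c b) z := by
  intro x y hxy
  refine sum_congr rfl fun b hb => sum_congr rfl fun s hs => ?_
  have hb' := mem_range.1 hb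
  exact meas_anti Φ (update_le_mv c hs (by omega : b ≤ a)) (hm _ (update_mem hs (by omega))) x y hxy

end step

theorem main {ι Ω : Type} [Fintype ι] [DecidableEq ι] [Fintype Ω] (Φ : Filt ι Ω)
    (p : ℕ) (hp : 1 ≤ p) (M u : ℕ) (ψ β : ℕ → ℝ) (γ Λ : ℝ)
    (hψ : ∀ w, 0 ≤ ψ w) (hβ : ∀ w, 0 ≤ β w) (hγ : 0 ≤ γ)
    (h1 : ∀ w < u, ψ w ^ p ≤ β w ^ (p + 1)) (h2 : ((M + 1) * ψ u) ^ p ≤ γ ^ (p + 1))
    (hΛ : ∑ w ∈ range u, β w + γ ≤ Λ) (S : Finset ι) :
    ∀ (A : ℝ) (Z : (ι → ℕ) → Ω → ℝ), 0 ≤ A →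
      (∀ s ∈ sbox S M, ∀ z, 0 ≤ Z s z) →
      (∀ s ∈ sbox S M, Φ.Meas s (Z s)) →
      (∀ s ∈ sbox S M, ∀ t ∈ sbox S M, t ≤ s → ∀ z,
        Φ.E t (Z s) z ≤ A * ∏ e ∈ S, ψ (s e - t e)) →
      ∑ z, (∑ s ∈ sbox S M, Z s z) ^ (p + 1) ≤
        (((p + 1) * Λ) ^ S.card) ^ (p + 1) * A ^ p * ∑ z, ∑ s ∈ sbox S M, Z s z := by
  have hΛ0 : 0 ≤ Λ := le_trans (add_nonneg (sum_nonneg fun w _ => hβ w) hγ) hΛ
  induction S using Finset.induction_on with
  | empty =>
    intro A Z hA h0 hm hE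
    have hb : sbox (∅ : Finset ι) M = {fun _ => M} := by
      ext s
      rw [mem_sbox, mem_singleton]
      constructor
      · intro h; funext e; exact h.2 e (notMem_empty e)
      · rintro rfl; exact ⟨fun _ => le_rfl, fun _ _ => rfl⟩
    rw [hb] at h0 hm hE ⊢
    simp only [sum_singleton, card_empty, pow_zero, one_pow, one_mul]
    rw [mul_sum]
    refine sum_le_sum fun z _ => ?_
    have h3 := hE _ (mem_singleton_self _) _ (mem_singleton_self _) le_rfl z
    rw [E_of_meas Φ _ _ (hm _ (mem_singleton_self _)), prod_empty, mul_one] at h3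
    have h4 := h0 _ (mem_singleton_self _) z
    rw [pow_succ]
    exact mul_le_mul_of_nonneg_right (pow_le_pow_left₀ h4 h3 p) h4
  | insert c S hc ih =>
    intro A Z hA h0 hm hE
    obtain ⟨K, hK⟩ : ∃ K : ℝ, K = ((p + 1) * Λ) ^ S.card := ⟨_, rfl⟩
    have hK0 : 0 ≤ K := by rw [hK]; positivity
    obtain ⟨Y, hY⟩ : ∃ Y : ℕ → Ω → ℝ,
        Y = fun b z => ∑ s ∈ sbox S M, Z (Function.update s c b) z := ⟨_, rfl⟩
    obtain ⟨P, hP⟩ : ∃ P : ℕ → Ω → ℝ, P = fun n z => ∑ b ∈ range n, Y b z := ⟨_, rfl⟩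
    obtain ⟨G, hG⟩ : ∃ G : ℕ → ℕ → Ω → ℝ,
        G = fun w b z => ∑ s ∈ sbox S M, Zp Φ M c Z w b s z := ⟨_, rfl⟩
    have hTot : ∀ z, ∑ s ∈ sbox (insert c S) M, Z s z = P (M + 1) z := fun z => by
      rw [hP, hY]; exact sum_sbox_insert hc M fun s => Z s z
    have hY0 : ∀ b < M + 1, ∀ z, 0 ≤ Y b z := fun b hb z => by
      rw [hY]; exact sum_nonneg fun s hs => h0 _ (update_mem hs (by omega)) z
    have hP0 : ∀ n ≤ M + 1, ∀ z, 0 ≤ P n z := fun n hn z => by
      rw [hP]; exact sum_nonneg fun b hb => hY0 b (by have := mem_range.1 hb; omega) z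
    have hPm : ∀ n n', n ≤ n' → n' ≤ M + 1 → ∀ z, P n z ^ p ≤ P n' z ^ p := fun n n' h h' z => by
      refine pow_le_pow_left₀ (hP0 n (by omega) z) ?_ p
      rw [hP]
      exact sum_le_sum_of_subset_of_nonneg (range_subset_range.2 h)
        fun b hb _ => hY0 b (by have := mem_range.1 hb; omega) z
    have hPz : ∀ z, P 0 z ^ p = 0 := fun z => by
      have hp0 : p ≠ 0 := by omega
      simp [hP, hp0]
    have hPM : ∀ n a, n ≤ M + 1 → n ≤ a + 1 → Φ.Meas (mv M c a) (P n) := fun n a h h' => by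
      rw [hP, hY]; exact P_meas Φ hm h h'
    have hG0 : ∀ w, ∀ b < M + 1, ∀ z, 0 ≤ G w b z := fun w b hb z => by
      rw [hG]; exact sum_nonneg fun s hs => Zp_nonneg Φ h0 w (by omega) hs z
    have hGT : ∀ w, ∑ b ∈ range (M + 1), ∑ z, G w b z ≤ ∑ z, P (M + 1) z := fun w => by
      rw [hP, sum_comm (s := univ) (t := range (M + 1))]
      refine sum_le_sum fun b hb => ?_
      rw [hG, hY]
      exact Zp_total Φ h0 w (Nat.le_of_lt_succ (mem_range.1 hb))
    have hpair : ∀ w b (H : Ω → ℝ), Φ.Meas (mv M c (b - w)) H → (b < w → ∀ z, H z = 0) →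
        ∑ z, H z * Y b z = ∑ z, H z * G w b z := fun w b H hH hH0 => by
      rw [hG, hY]; exact Zp_pair Φ w b H hH hH0
    simp only [hTot]
    obtain ⟨T, hT⟩ : ∃ T : ℝ, T = ∑ z, P (M + 1) z := ⟨_, rfl⟩
    have hT0 : 0 ≤ T := by rw [hT]; exact sum_nonneg fun z _ => hP0 _ le_rfl z
    obtain ⟨n, hn0, hn⟩ := exists_root p (∑ z, P (M + 1) z ^ (p + 1))
      (sum_nonneg fun z _ => pow_nonneg (hP0 _ le_rfl z) _)
    obtain ⟨R, hR0, hR⟩ := exists_root p (A ^ p * T) (by positivity)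
    have near : ∀ w < u, ∑ z, ∑ b ∈ range (M + 1),
        (P (b + 1 - w) z ^ p - P (b - w) z ^ p) * Y b z ≤ n ^ p * (K * β w * R) := by
      intro w hw
      have hD : ∀ b ∈ range (M + 1), ∑ z, (P (b + 1 - w) z ^ p - P (b - w) z ^ p) * Y b z =
          ∑ z, (P (b + 1 - w) z ^ p - P (b - w) z ^ p) * G w b z := by
        intro b hb
        have hb' := mem_range.1 hb
        refine hpair w b _ (fun x y hxy => ?_) fun h z => ?_
        · rw [hPM (b + 1 - w) (b - w) (by omega) (by omega) x y hxy,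
            hPM (b - w) (b - w) (by omega) (by omega) x y hxy]
        · rw [show b + 1 - w = 0 by omega, show b - w = 0 by omega, sub_self]
      rw [sum_comm, sum_congr rfl hD, sum_comm]
      have hg : ∀ z, ∃ r : ℝ, 0 ≤ r ∧ r ^ (p + 1) = ∑ b ∈ range (M + 1), G w b z ^ (p + 1) :=
        fun z => exists_root p _ (sum_nonneg fun b hb => pow_nonneg (hG0 w b (mem_range.1 hb) z) _)
      choose g hg0 hg using hg
      have hGg : ∀ b ∈ range (M + 1), ∀ z, G w b z ≤ g z := by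
        intro b hb z
        refine le_of_pow_le_pow_left₀ (Nat.succ_ne_zero p) (hg0 z) ?_
        rw [hg z]
        exact single_le_sum (f := fun b => G w b z ^ (p + 1))
          (fun b hb => pow_nonneg (hG0 w b (mem_range.1 hb) z) _) hb
      have hpt : ∀ z, ∑ b ∈ range (M + 1), (P (b + 1 - w) z ^ p - P (b - w) z ^ p) * G w b z ≤
          P (M + 1) z ^ p * g z := by
        intro z
        have e1 : ∑ b ∈ range (M + 1), (P (b + 1 - w) z ^ p - P (b - w) z ^ p) * G w b z ≤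
            ∑ b ∈ range (M + 1), (P (b + 1 - w) z ^ p - P (b - w) z ^ p) * g z := by
          refine sum_le_sum fun b hb => mul_le_mul_of_nonneg_left (hGg b hb z) ?_
          have hb' := mem_range.1 hb
          exact sub_nonneg.2 (hPm _ _ (by omega) (by omega) z)
        rw [← sum_mul, sum_range_sub (fun b => P (b - w) z ^ p), Nat.zero_sub, hPz, sub_zero] at e1
        exact e1.trans (mul_le_mul_of_nonneg_right (hPm _ _ (by omega) le_rfl z) (hg0 z))
      refine (sum_le_sum fun z _ => hpt z).trans ?_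
      refine holder p hp _ _ _ _ (hP0 _ le_rfl) hg0 hn0 (by have := hβ w; positivity) hn.ge ?_
      simp only [hg]
      rw [sum_comm]
      have hI : ∀ b ∈ range (M + 1), ∑ z, G w b z ^ (p + 1) ≤
          K ^ (p + 1) * (A * ψ w) ^ p * ∑ z, G w b z := by
        intro b hb
        have hb' : b ≤ M := Nat.le_of_lt_succ (mem_range.1 hb)
        rw [hG, hK]
        exact ih (A * ψ w) (Zp Φ M c Z w b) (mul_nonneg hA (hψ w))
          (fun s hs z => Zp_nonneg Φ h0 w hb' hs z) (fun s hs => Zp_meas Φ hc hm w hb' hs)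
          (fun s hs t ht hts z => Zp_cond Φ hc hA hψ hE w hb' hs ht hts z)
      refine (sum_le_sum hI).trans ?_
      rw [← mul_sum]
      have hψw := hψ w
      calc K ^ (p + 1) * (A * ψ w) ^ p * ∑ b ∈ range (M + 1), ∑ z, G w b z
          ≤ K ^ (p + 1) * (A * ψ w) ^ p * T :=
            mul_le_mul_of_nonneg_left (hT ▸ hGT w) (by positivity)
        _ = K ^ (p + 1) * ψ w ^ p * (A ^ p * T) := by ring
        _ ≤ K ^ (p + 1) * β w ^ (p + 1) * (A ^ p * T) := by
            have := h1 w hw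
            gcongr
        _ = (K * β w * R) ^ (p + 1) := by rw [← hR]; ring
    have far : ∑ z, ∑ b ∈ range (M + 1), P (b + 1 - u) z ^ p * Y b z ≤ n ^ p * (K * γ * R) := by
      have hD : ∀ b ∈ range (M + 1), ∑ z, P (b + 1 - u) z ^ p * Y b z =
          ∑ z, P (b + 1 - u) z ^ p * G u b z := by
        intro b hb
        have hb' := mem_range.1 hb
        refine hpair u b _ (fun x y hxy => ?_) fun h z => ?_
        · rw [hPM (b + 1 - u) (b - u) (by omega) (by omega) x y hxy]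
        · rw [show b + 1 - u = 0 by omega, hPz]
      rw [sum_comm, sum_congr rfl hD, sum_comm]
      have hpt : ∀ z, ∑ b ∈ range (M + 1), P (b + 1 - u) z ^ p * G u b z ≤
          P (M + 1) z ^ p * ∑ b ∈ range (M + 1), G u b z := by
        intro z
        rw [mul_sum]
        refine sum_le_sum fun b hb => ?_
        have hb' := mem_range.1 hb
        exact mul_le_mul_of_nonneg_right (hPm _ _ (by omega) le_rfl z) (hG0 u b hb' z)
      refine (sum_le_sum fun z _ => hpt z).trans ?_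
      refine holder p hp _ _ _ _ (hP0 _ le_rfl)
        (fun z => sum_nonneg fun b hb => hG0 u b (mem_range.1 hb) z) hn0 (by positivity) hn.ge ?_
      have hψu := hψ u
      have hI := ih (A * ((M + 1) * ψ u)) (fun s z => ∑ b ∈ range (M + 1), Zp Φ M c Z u b s z)
        (by positivity)
        (fun s hs z => sum_nonneg fun b hb =>
          Zp_nonneg Φ h0 u (Nat.le_of_lt_succ (mem_range.1 hb)) hs z)
        (fun s hs x y hxy => sum_congr rfl fun b hb =>
          Zp_meas Φ hc hm u (Nat.le_of_lt_succ (mem_range.1 hb)) hs x y hxy)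
        (fun s hs t ht hts z => by
          rw [E_sum]
          refine (sum_le_sum fun b hb => Zp_cond Φ hc hA hψ hE u
            (Nat.le_of_lt_succ (mem_range.1 hb)) hs ht hts z).trans_eq ?_
          rw [sum_const, card_range, nsmul_eq_mul]
          push_cast
          ring)
      have hW : ∀ z, ∑ s ∈ sbox S M, ∑ b ∈ range (M + 1), Zp Φ M c Z u b s z =
          ∑ b ∈ range (M + 1), G u b z := fun z => by
        rw [hG, sum_comm]
      simp only [hW] at hI
      rw [← hK, sum_comm (s := univ) (t := range (M + 1))] at hI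
      refine hI.trans ?_
      calc K ^ (p + 1) * (A * ((M + 1) * ψ u)) ^ p * ∑ b ∈ range (M + 1), ∑ z, G u b z
          ≤ K ^ (p + 1) * (A * ((M + 1) * ψ u)) ^ p * T :=
            mul_le_mul_of_nonneg_left (hT ▸ hGT u) (by positivity)
        _ = K ^ (p + 1) * ((M + 1) * ψ u) ^ p * (A ^ p * T) := by rw [mul_pow A]; ring
        _ ≤ K ^ (p + 1) * γ ^ (p + 1) * (A ^ p * T) := by gcongr
        _ = (K * γ * R) ^ (p + 1) := by rw [← hR]; ring
    have tele : ∀ b z, P (b + 1) z ^ p = P (b + 1 - u) z ^ p +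
        ∑ w ∈ range u, (P (b + 1 - w) z ^ p - P (b - w) z ^ p) := by
      intro b z
      have := sum_range_sub' (fun w => P (b + 1 - w) z ^ p) u
      simp only [Nat.add_sub_add_right, Nat.sub_zero] at this
      rw [this]
      ring
    have key : n ^ (p + 1) ≤ (p + 1) * (n ^ p * (K * Λ * R)) := by
      rw [hn]
      have e1 : ∀ z, P (M + 1) z ^ (p + 1) ≤
          (p + 1) * ∑ b ∈ range (M + 1), P (b + 1) z ^ p * Y b z := fun z => by
        have := gn p (fun b => Y b z) (M + 1) fun b hb => hY0 b hb z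
        rw [hP]
        exact this
      refine (sum_le_sum fun z _ => e1 z).trans ?_
      rw [← mul_sum]
      refine mul_le_mul_of_nonneg_left ?_ (by positivity)
      have e2 : ∑ z, ∑ b ∈ range (M + 1), P (b + 1) z ^ p * Y b z =
          ∑ z, ∑ b ∈ range (M + 1), P (b + 1 - u) z ^ p * Y b z +
          ∑ w ∈ range u, ∑ z, ∑ b ∈ range (M + 1),
            (P (b + 1 - w) z ^ p - P (b - w) z ^ p) * Y b z := by
        rw [sum_comm (s := range u), ← sum_add_distrib]
        refine sum_congr rfl fun z _ => ?_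
        rw [sum_comm (s := range u), ← sum_add_distrib]
        refine sum_congr rfl fun b _ => ?_
        rw [tele b z, add_mul, sum_mul]
      rw [e2]
      have e3 := sum_le_sum fun w hw => near w (mem_range.1 hw)
      have e4 : ∑ w ∈ range u, n ^ p * (K * β w * R) = n ^ p * (K * (∑ w ∈ range u, β w) * R) := by
        rw [mul_sum, sum_mul, mul_sum]
      have e5 : n ^ p * (K * (∑ w ∈ range u, β w + γ) * R) ≤ n ^ p * (K * Λ * R) := by gcongr
      rw [e4] at e3
      have e6 : n ^ p * (K * (∑ w ∈ range u, β w + γ) * R) =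
          n ^ p * (K * (∑ w ∈ range u, β w) * R) + n ^ p * (K * γ * R) := by ring
      linarith
    have fin : n ≤ (p + 1) * Λ * K * R := by
      rcases hn0.eq_or_lt with h | h
      · rw [← h]; positivity
      · refine le_of_mul_le_mul_left ?_ (pow_pos h p)
        calc n ^ p * n = n ^ (p + 1) := by ring
          _ ≤ _ := key
          _ = _ := by ring
    rw [← hn, ← hT, card_insert_of_notMem hc, pow_succ (((p : ℝ) + 1) * Λ) S.card, ← hK]
    calc n ^ (p + 1) ≤ ((p + 1) * Λ * K * R) ^ (p + 1) := pow_le_pow_left₀ hn0 fin _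
      _ = (K * ((p + 1) * Λ)) ^ (p + 1) * R ^ (p + 1) := by rw [← mul_pow]; congr 1; ring
      _ = _ := by rw [hR, mul_assoc]

theorem thm_moment : S_moment := by
  intro d q ρ hq hρ0 hρ1
  obtain ⟨p, rfl⟩ : ∃ p, q = p + 1 := ⟨q - 1, by omega⟩
  have hp : 1 ≤ p := by omega
  obtain ⟨σ, hσ0, hσ⟩ := exists_root p ρ hρ0.le
  have hσ1 : σ < 1 := by
    by_contra h
    have := one_le_pow₀ (n := p + 1) (not_lt.1 h)
    linarith
  obtain ⟨C0, hC0⟩ : ∃ C0 : ℝ, C0 = 3 * (1 - σ)⁻¹ + 3 := ⟨_, rfl⟩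
  have hi : 0 < (1 - σ)⁻¹ := inv_pos.2 (by linarith)
  have hC1 : 1 ≤ ((p : ℝ) + 1) * C0 := by
    have : (0 : ℝ) ≤ p := Nat.cast_nonneg p
    nlinarith
  refine ⟨((p + 1) * C0) ^ d, by positivity, ?_⟩
  intro ι Ω _ _ _ hd Φ S M θ A Z hθ hX hA h0 hm hE hS
  have hex : ∃ u : ℕ, ρ ^ u ≤ θ := by
    obtain ⟨u, hu⟩ := exists_pow_lt_of_lt_one hθ hρ1
    exact ⟨u, hu.le⟩
  obtain ⟨y, hy0, hy⟩ := exists_root p ((M + 1) * θ) (by positivity)
  have hy1 : 1 ≤ y := by
    by_contra h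
    have : y ^ (p + 1) < 1 := pow_lt_one₀ hy0 (not_le.1 h) (Nat.succ_ne_zero p)
    linarith
  have hyp : 1 ≤ y ^ p := one_le_pow₀ hy1
  have h3 : (3 : ℝ) ^ p ≤ 3 ^ (p + 1) := pow_le_pow_right₀ (by norm_num) (Nat.le_succ p)
  have hmain := main Φ p hp M (Nat.find hex) (fun w => θ + 2 * ρ ^ w) (fun w => 3 * σ ^ w)
    (3 * y ^ p) (C0 * y ^ p) (fun w => by positivity) (fun w => by positivity) (by positivity)
    (fun w hw => by
      have h4 : θ < ρ ^ w := not_le.1 (Nat.find_min hex hw)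
      have h5 : ρ ^ w ≤ 1 := pow_le_one₀ hρ0.le hρ1.le
      have h6 : (ρ ^ w) ^ p ≤ (ρ ^ w) ^ 1 := pow_le_pow_of_le_one (by positivity) h5 hp
      calc (θ + 2 * ρ ^ w) ^ p ≤ (3 * ρ ^ w) ^ p :=
            pow_le_pow_left₀ (by positivity) (by linarith) p
        _ = 3 ^ p * (ρ ^ w) ^ p := mul_pow _ _ _
        _ ≤ 3 ^ (p + 1) * (ρ ^ w) ^ 1 := by gcongr
        _ = (3 * σ ^ w) ^ (p + 1) := by rw [← hσ]; ring)
    (by
      have h4 : ρ ^ Nat.find hex ≤ θ := Nat.find_spec hex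
      calc ((M + 1) * (θ + 2 * ρ ^ Nat.find hex)) ^ p ≤ (3 * ((M + 1) * θ)) ^ p := by
            refine pow_le_pow_left₀ (by positivity) ?_ p
            have : (0 : ℝ) ≤ M + 1 := by positivity
            nlinarith
        _ = 3 ^ p * ((M + 1) * θ) ^ p := mul_pow _ _ _
        _ ≤ 3 ^ (p + 1) * ((M + 1) * θ) ^ p := by gcongr
        _ = (3 * y ^ p) ^ (p + 1) := by rw [← hy]; ring)
    (by
      have h4 : ∑ w ∈ range (Nat.find hex), σ ^ w ≤ (1 - σ)⁻¹ := by
        rw [← tsum_geometric_of_lt_one hσ0 hσ1]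
        exact (summable_geometric_of_lt_one hσ0 hσ1).sum_le_tsum _ fun w _ => by positivity
      rw [← mul_sum, hC0]
      nlinarith)
    S A Z hA h0 hm hE
  have hT : ∑ z, ∑ s ∈ sbox S M, Z s z ≤ A * ((M + 1) * θ) ^ S.card * Fintype.card Ω := by
    rw [sum_comm]
    refine (sum_le_sum hS).trans_eq ?_
    rw [sum_const, card_sbox, nsmul_eq_mul, mul_pow]
    push_cast
    ring
  have hk : S.card ≤ d := hd ▸ card_le_univ S
  have hC0' : 0 ≤ C0 := by rw [hC0]; positivity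
  refine hmain.trans ?_
  calc (((p + 1) * (C0 * y ^ p)) ^ S.card) ^ (p + 1) * A ^ p * ∑ z, ∑ s ∈ sbox S M, Z s z
      ≤ (((p + 1) * (C0 * y ^ p)) ^ S.card) ^ (p + 1) * A ^ p *
          (A * ((M + 1) * θ) ^ S.card * Fintype.card Ω) :=
        mul_le_mul_of_nonneg_left hT (by positivity)
    _ = (((p + 1) * C0) ^ S.card * A * ((M + 1) * θ) ^ S.card) ^ (p + 1) * Fintype.card Ω := by
        rw [← hy]
        simp only [mul_pow, ← pow_mul]
        ring
    _ ≤ _ := by gcongr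

end Pool.Agent.H261Z.Moment
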